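import Pool.Agent.MP_3ce0a0_al.H79.SpecT

/-! Centralisers and involutions act on the cycles of fixed subgraphs. -/

set_option autoImplicit false

namespace Pool.Agent.MP_3ce0a0_al.H76

open Pool.Agent.MP_3ce0a0_al.H79

section lnk
variable {V E : Type} {o t : E → V} {P : E → Prop}

theorem lnk_edge {u : V} {e : E} (he : P e) : Lnk o t P u (o e) ↔ Lnk o t P u (t e) :=
  ⟨fun a => a.tail ⟨e, he, Or.inl ⟨rfl, rfl⟩⟩, fun a => a.tail ⟨e, he, Or.inr ⟨rfl, rfl⟩⟩⟩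

open Classical in
theorem cyc_part [Fintype E] {c : E → ℂ} (hc : Cyc o t c) (hP : ∀ e, c e ≠ 0 → P e) (u : V) :
    Cyc o t fun e => if Lnk o t P u (o e) then c e else 0 := by
  intro w
  by_cases hw : Lnk o t P u w
  · refine Eq.trans (Finset.sum_congr rfl fun e _ => ?_)
      ((hc w).trans (Finset.sum_congr rfl fun e _ => ?_))
    · by_cases h1 : t e = w
      · by_cases h2 : c e = 0
        · simp [h2]
        · simp [h1, (lnk_edge (hP e h2)).2 (h1 ▸ hw)]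
      · simp [h1]
    · by_cases h1 : o e = w <;> simp [h1, hw]
  · rw [Finset.sum_eq_zero, Finset.sum_eq_zero]
    · intro e _
      by_cases h1 : o e = w <;> simp [h1, hw]
    · intro e _
      by_cases h1 : t e = w
      · by_cases h2 : c e = 0
        · simp [h2]
        · have : ¬ Lnk o t P u (o e) := fun a => hw (h1 ▸ (lnk_edge (hP e h2)).1 a)
          simp [this]
      · simp [h1]

end lnk

theorem ab_conj {m : ℕ} (y x : FG m) : ab ((MulAut.conj y)⁻¹ x) = ab x := by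
  simp [ab]

section pb
variable {G : Type} [Group G] {m : ℕ} {ψ : G →* Out (FG m)}

/-- the projection of the extension -/
def qq (ψ : G →* Out (FG m)) : PB ψ →* G := (MonoidHom.fst _ _).comp (PB ψ).subtype

theorem qq_apply (k : PB ψ) : qq ψ k = k.1.1 := rfl

theorem pb_mk (k : PB ψ) : ψ k.1.1 = QuotientGroup.mk k.1.2 := k.2

theorem qq_surj (g : G) : ∃ k : PB ψ, k.1.1 = g := by
  obtain ⟨α, h⟩ := QuotientGroup.mk_surjective (ψ g)
  exact ⟨⟨(g, α), h.symm⟩, rfl⟩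

variable {ι : FG m →* PB ψ}

theorem range_eq (hι : ∀ x, (ι x).1 = (1, MulAut.conj x)) : ι.range = (qq ψ).ker := by
  ext k
  rw [MonoidHom.mem_ker, qq_apply]
  constructor
  · rintro ⟨x, rfl⟩
    rw [hι]
  · intro h
    have := pb_mk k
    rw [h, map_one, eq_comm, QuotientGroup.eq_one_iff] at this
    obtain ⟨x, hx⟩ := this
    exact ⟨x, Subtype.ext ((hι x).trans (Prod.ext h.symm hx))⟩

theorem comm_iff (hι : ∀ x, (ι x).1 = (1, MulAut.conj x)) (inj : Function.Injective ι)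
    (x : FG m) (k : PB ψ) : Commute (ι x) k ↔ k.1.2 x = x := by
  have e : ι (k.1.2 x) * k = k * ι x := by
    apply Subtype.ext
    rw [Subgroup.coe_mul, Subgroup.coe_mul, hι, hι]
    ext y <;> simp
  rw [commute_iff_eq, ← e, mul_left_inj, inj.eq_iff, eq_comm]

variable {V Ed V' Ed' : Type} [MulAction (PB ψ) V] [MulAction (PB ψ) Ed] [MulAction G V']
  [MulAction G Ed'] [Fintype Ed'] {o t : Ed → V} {side : Ed → Set V} {o' t' : Ed' → V'}
  {pv : V → V'} {pe : Ed → Ed'} {p : V → Ed' → ℂ} {j : HV m →ₗ[ℂ] (Ed' → ℂ)}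

theorem lift_fix (c : Cov ψ ι o t side o' t' pv pe p j) {g : G} {v : V} (h : g • pv v = pv v) :
    ∃ k : PB ψ, k.1.1 = g ∧ k • v = v := by
  obtain ⟨hι, -, -, -, hQ, ev, -⟩ := c
  obtain ⟨k, rfl⟩ := qq_surj (ψ := ψ) g
  obtain ⟨_, ⟨x, rfl⟩, hf⟩ := (hQ.2.2.1 (k • v) v).1 ((ev k v).trans h)
  exact ⟨ι x * k, by simp [hι], by rw [mul_smul, hf]⟩

theorem lift_uniq (c : Cov ψ ι o t side o' t' pv pe p j) {k k' : PB ψ} {v : V}
    (e : k.1.1 = k'.1.1) (h : k • v = v) (h' : k' • v = v) : k = k' := by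
  obtain ⟨hι, -, -, hC, -⟩ := c
  rw [← inv_mul_eq_one]
  refine hC.1 _ ?_ v (by rw [mul_smul, h', inv_smul_eq_iff, h])
  rw [range_eq hι, MonoidHom.mem_ker, map_mul, map_inv, qq_apply, qq_apply, e, inv_mul_cancel]

theorem o_smul (c : Cov ψ ι o t side o' t' pv pe p j) (g : G) (e : Ed') :
    o' (g • e) = g • o' e := by
  obtain ⟨-, -, hT, -, hQ, ev, ee, -⟩ := c
  obtain ⟨k, rfl⟩ := qq_surj (ψ := ψ) g
  obtain ⟨d, rfl⟩ := hQ.2.1 e
  rw [← ee, hQ.2.2.2.2.1, hQ.2.2.2.2.1, hT.1, ev]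

theorem comp (h2 : SComp) [Fintype V'] (c : Cov ψ ι o t side o' t' pv pe p j)
    (K : Subgroup (PB ψ)) (v : V) (hv : ∀ k ∈ K, k • v = v) (P : Ed' → Prop)
    (hP : ∀ e, P e ↔ ∀ k ∈ K, k.1.1 • e = e) :
    (∀ w', Lnk o' t' P (pv v) w' → ∃ w, pv w = w' ∧ ∀ k ∈ K, k • w = w) ∧
    ∀ h : HV m, (∀ e, j h e ≠ 0 → P e ∧ Lnk o' t' P (pv v) (o' e)) ↔
      h ∈ Submodule.span ℂ {y | ∃ x, y = ab x ∧ ∀ k ∈ K, k.1.2 x = x} := by
  obtain ⟨hι, inj, hT, hC, hQ, ev, ee, hH, -⟩ := c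
  obtain rfl : P = fun e => ∀ k ∈ K, qq ψ k • e = e := funext fun e => propext (hP e)
  simpa only [comm_iff hι inj] using h2 (PB ψ) G m ι (qq ψ) V Ed V' Ed' o t side o' t' pv pe p j
    (range_eq hι ▸ inferInstance) hT hC hQ ev ee hH K v hv

end pb

theorem srb (h1 : SFix) (h2 : SComp) : SRB := by
  intro G _ _ m π ψ ι V Ed V' Ed' _ _ _ _ _ _ o t side o' t' pv pe p j hπ c B ⟨v', hv'⟩ hL θ hθ h hh
  obtain ⟨v, rfl⟩ := c.2.2.2.2.1.1 v'
  obtain ⟨γ, rfl⟩ := QuotientGroup.mk_surjective θ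
  let K : Subgroup (PB ψ) := B.comap (qq ψ) ⊓ MulAction.stabilizer _ v
  have hK : ∀ b ∈ B, ∃ k ∈ K, k.1.1 = b := fun b hb => by
    obtain ⟨k, rfl, hk⟩ := lift_fix c (hv' b hb)
    exact ⟨k, ⟨hb, hk⟩, rfl⟩
  obtain ⟨c1, c2⟩ := comp h2 c K v (fun k hk => hk.2) (fun e => ∀ b ∈ B, b • e = e)
    fun e => ⟨fun a k hk => a _ hk.1, fun a b hb => by
      obtain ⟨k, hk, rfl⟩ := hK b hb
      exact a k hk⟩
  have : Finite K := Finite.of_injective (fun k : K => k.1.1.1) fun k k' e =>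
    Subtype.ext (lift_uniq c e k.2.2 k'.2.2)
  let φ : K →* PB ψ :=
    { toFun := fun k => ⟨(k.1.1.1, γ * k.1.1.2 * γ⁻¹), by
        show ψ k.1.1.1 = QuotientGroup.mk (γ * k.1.1.2 * γ⁻¹)
        rw [QuotientGroup.mk_mul, QuotientGroup.mk_mul, QuotientGroup.mk_inv, ← pb_mk,
          (hθ k.1.1.1 k.2.1).eq, mul_inv_cancel_right]⟩
      map_one' := Subtype.ext (by simp)
      map_mul' := fun a b => Subtype.ext (by simp [mul_assoc]) }
  obtain ⟨w, hw⟩ := (h1 _ V Ed o t side c.2.2.1).1 φ.range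
    (Finite.of_surjective _ φ.rangeRestrict_surjective)
  obtain ⟨w₀, e₀, h₀⟩ := c1 (pv w) (hL _ _ hv' fun b hb => by
    obtain ⟨k, hk, rfl⟩ := hK b hb
    exact (c.2.2.2.2.2.1 (φ ⟨k, hk⟩) w).symm.trans (congrArg pv (hw _ ⟨_, rfl⟩)))
  obtain ⟨_, ⟨y, rfl⟩, rfl⟩ := (c.2.2.2.2.1.2.2.1 w₀ w).1 e₀
  have key : ∀ k ∈ K, γ * k.1.2 * γ⁻¹ = MulAut.conj y * k.1.2 * (MulAut.conj y)⁻¹ := fun k hk => by
    have := lift_uniq c (k := φ ⟨k, hk⟩) (k' := ι y * k * (ι y)⁻¹) (by simp [c.1, φ])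
      (hw _ ⟨_, rfl⟩) (by rw [mul_smul, inv_smul_smul, mul_smul, h₀ k hk])
    refine (congrArg (fun z : PB ψ => z.1.2) this).trans ?_
    simp only [c.1, Subgroup.coe_mul, Subgroup.coe_inv, Prod.snd_mul, Prod.snd_inv]
  have m1 := (c2 h).1 fun e he => ⟨hh e he, hL _ _ hv' fun b hb => by
    rw [← o_smul c, hh e he b hb]⟩
  refine fun e he => ((c2 _).2 ?_ e he).1
  refine Submodule.mem_comap.1
    ((Submodule.span_le (p := Submodule.comap (π (QuotientGroup.mk γ)).toLinearMap _)).2 ?_ m1)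
  rintro _ ⟨x, rfl, hx⟩
  refine Submodule.subset_span ⟨(MulAut.conj y)⁻¹ (γ x), ?_, fun k hk => ?_⟩
  · rw [ab_conj]; exact hπ γ x
  · have := congrArg (fun z : MulAut (FG m) => (MulAut.conj y)⁻¹ (z (γ x))) (key k hk)
    simpa only [MulAut.mul_apply, MulAut.inv_apply_self, hx k hk] using this.symm

theorem srd (h1 : SFix) (h2 : SComp) : SRD := by
  classical
  intro G _ _ m π ψ ι V Ed V' Ed' _ _ _ _ _ _ o t side o' t' pv pe p j _ c g hg h
  have hz : ∀ k : PB ψ, k.1.1 = g → ∀ e : Ed',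
      g • e = e ↔ ∀ k' ∈ Subgroup.zpowers k, k'.1.1 • e = e := fun k hk e =>
    ⟨fun a k' hk' => (Subgroup.zpowers_le (H := (MulAction.stabilizer G e).comap (qq ψ))).2
      (show k.1.1 • e = e from hk ▸ a) hk', fun a => hk ▸ a k (Subgroup.mem_zpowers k)⟩
  obtain ⟨-, -, ji, jr⟩ := c.2.2.2.2.2.2.2.1
  constructor
  · induction hn : (Finset.univ.filter fun e => j h e ≠ 0).card using Nat.strong_induction_on
      generalizing h with
    | _ n ih =>
      intro hh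
      by_cases h0 : j h = 0
      · rw [ji (h0.trans (map_zero j).symm)]
        exact zero_mem _
      obtain ⟨e₀, he₀⟩ := Function.ne_iff.1 h0
      obtain ⟨v, hv⟩ := c.2.2.2.2.1.1 (o' e₀)
      obtain ⟨k, hk, kv⟩ := lift_fix c (g := g) (v := v) (by rw [hv, ← o_smul c, hh e₀ he₀])
      obtain ⟨h₁, e₁⟩ := (jr _).2 (cyc_part ((jr _).1 ⟨h, rfl⟩) hh (pv v))
      have k2 : k * k = 1 := lift_uniq c (by simp [hk, hg]) (by rw [mul_smul, kv, kv])
        (one_smul _ v)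
      have m1 := ((comp h2 c (Subgroup.zpowers k) v (fun k' hk' =>
        (Subgroup.zpowers_le (H := MulAction.stabilizer _ v)).2 kv hk') _ (hz k hk)).2 h₁).1
        fun e he => by
          rw [e₁] at he
          obtain ⟨a, b⟩ := ite_ne_right_iff.1 he
          exact ⟨hh e b.symm.symm, a⟩
      have s : ∀ e, j (h - h₁) e ≠ 0 → j h e ≠ 0 ∧ e ≠ e₀ := fun e he => by
        rw [map_sub, e₁, Pi.sub_apply] at he
        refine ⟨fun a => he (by simp [a]), fun a => he ?_⟩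
        rw [a, if_pos (hv ▸ Relation.ReflTransGen.refl), sub_self]
      rw [← sub_add_cancel h h₁]
      refine add_mem (ih _ ?_ _ rfl fun e he => hh e (s e he).1) (Submodule.span_mono ?_ m1)
      · rw [← hn]
        refine Finset.card_lt_card ⟨fun e he => ?_, fun a => ?_⟩
        · simpa using (s e (by simpa using he)).1
        · exact (s e₀ (by simpa using a (by simpa using he₀ : e₀ ∈ _))).2 rfl
      · rintro _ ⟨x, rfl, hx⟩
        exact ⟨x, k.1.2, rfl, hk ▸ (pb_mk k).symm, congrArg (fun z : PB ψ => z.1.2) k2,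
          hx k (Subgroup.mem_zpowers k)⟩
  · intro hh e
    rw [not_imp_comm]
    intro he
    induction hh using Submodule.span_induction with
    | zero => simp
    | add a b _ _ ha hb => simp [ha, hb]
    | smul a b _ hb => simp [hb]
    | mem y hy =>
      obtain ⟨x, α, rfl, a1, a2, a3⟩ := hy
      let k : PB ψ := ⟨(g, α), a1.symm⟩
      have k2 : k ^ 2 = 1 := Subtype.ext (by rw [sq]; exact Prod.ext hg a2)
      have : Finite (Subgroup.zpowers k) :=
        (finite_zpowers.2 (isOfFinOrder_iff_pow_eq_one.2 ⟨2, two_pos, k2⟩))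
      obtain ⟨v, hv⟩ := (h1 _ V Ed o t side c.2.2.1).1 (Subgroup.zpowers k) this
      by_contra a
      refine he (((comp h2 c _ v hv _ (hz k rfl)).2 _).2 (Submodule.subset_span ⟨x, rfl, ?_⟩) e a).1
      intro k' hk'
      rw [← comm_iff c.1 c.2.1]
      obtain ⟨n, rfl⟩ := hk'
      exact ((comm_iff c.1 c.2.1 x k).2 a3).zpow_right n

end Pool.Agent.MP_3ce0a0_al.H76
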